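import Pool.Agent.H42.CD.Final

/-!
# Constrained-degree percolation on `ℤ^d`: `d * t_c^κ(d)` converges for every `κ ≥ 3`

The objects (vertices, directions, edges, the law of the times, the stable set of open edges, the
open cluster, the percolation probability `theta` and the critical time `tc`) are defined in
`Pool.Agent.H42.CD.Stmt`. The first part says that the dynamics is well defined almost surely.
-/

open MeasureTheory Set Filter
open scoped ENNReal Topology

namespace Pool.Agent.Results.MP_0b7287_pr.LimitExists

open H42.CD

theorem result :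
    (∀ κ d : ℕ, ∀ᵐ U ∂lawU d, ∃! O : Set (Edge d), Stable κ U O) ∧
    ∀ κ : ℕ, 3 ≤ κ → ∃ c : ℝ,
      Tendsto (fun d : ℕ => (d : EReal) * tc κ d) atTop (𝓝 (c : EReal)) :=
  ⟨ae_exists_unique, fun κ hκ => ⟨sc κ / 2, main hκ⟩⟩

end Pool.Agent.Results.MP_0b7287_pr.LimitExists
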